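import Pool.Agent.N482.CHDefs
import Pool.Agent.R634.CH.Fin
import Pool.Agent.W668.Shai.Key2

set_option autoImplicit false

open Set
open scoped Cardinal

namespace Pool.Agent.Results.MP_4297ae_an.ConsistentlyYes

open Pool.Agent.Helper639.ForceCH (OmegaOnePreserved CHHolds)
open Pool.Agent.N482 (CH)

universe u v w

/-- The SHAI property of a normed space `X`: for every nonzero Banach space `Y`, every surjective
algebra homomorphism `ψ : B(X) → B(Y)` is injective. -/
def SHAI (𝕜 : Type w) [RCLike 𝕜] (X : Type u) [NormedAddCommGroup X] [NormedSpace 𝕜 X] : Prop :=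
  ∀ (Y : Type v) [NormedAddCommGroup Y] [NormedSpace 𝕜 Y] [CompleteSpace Y] [Nontrivial Y]
    (ψ : (X →L[𝕜] X) →ₙₐ[𝕜] (Y →L[𝕜] Y)), Function.Surjective ψ → Function.Injective ψ

/-- The Čech–Stone remainder of `ℕ`: the nonprincipal ultrafilters on `ℕ`. -/
abbrev Remainder : Type := {p : Ultrafilter ℕ // ∀ n : ℕ, p ≠ pure n}

/-- (1) Some forcing notion preserves `ω₁` and forces the continuum hypothesis. (2) The continuum
hypothesis implies that `C(βℕ ∖ ℕ)` has the SHAI property, for real and for complex scalars. -/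
theorem result :
    (∃ (P : Type) (_ : Preorder P), Nonempty P ∧
      ∀ p : P, p ∈ OmegaOnePreserved P ∧ p ∈ CHHolds P) ∧
    (CH → ∀ (𝕜 : Type w) [RCLike 𝕜], SHAI.{w, v} 𝕜 C(Remainder, 𝕜)) := by
  refine ⟨Pool.Agent.N482.ch_forced, ?_⟩
  intro hCH 𝕜 _ Y _ _ _ _ ψ hψ
  have h : Function.Injective (Pool.Agent.W668.Shai.toAlg ψ hψ) :=
    Pool.Agent.R634.CH.shai_rem (Pool.Agent.N482.ch_iff.1 hCH)
      (Pool.Agent.W668.Shai.toAlg ψ hψ) hψ
  exact h

end Pool.Agent.Results.MP_4297ae_an.ConsistentlyYes
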